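import Pool.Agent.H84.TI.Six

/-!
# MP_364e44_co, Q1: `liminf τ_±(Z_n,[1,4]) / √n ≥ 1/√6 = 0.4082…`

The known lower bound (Bajnok–Ruzsa 2003) is `1/√8 = 0.3535…`.
-/

set_option autoImplicit false

open Filter

namespace Pool.Agent.Results.MP_364e44_co.LiminfLower

/-- `A ⊆ Z_n` is `t`-independent: `∑ λ_a a ≠ 0` whenever `1 ≤ ∑ |λ_a| ≤ t` -/
def TIndependent (n t : ℕ) (A : Finset (ZMod n)) : Prop :=
  ∀ c : ZMod n → ℤ, 1 ≤ ∑ a ∈ A, |c a| → ∑ a ∈ A, |c a| ≤ t → ∑ a ∈ A, c a • a ≠ 0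

/-- `τ_±(Z_n,[1,t])`: the largest size of a `t`-independent subset of `Z_n` -/
noncomputable def tau (n t : ℕ) : ℕ :=
  sSup {k : ℕ | ∃ A : Finset (ZMod n), A.card = k ∧ TIndependent n t A}

/-- **Theorem.** If `p ≥ 3` is prime and `n ≥ 6 p (p - 1)` then `τ_±(Z_n,[1,4]) ≥ p - 1`. Hence
`liminf τ_±(Z_n,[1,4]) / √n ≥ 1/√6`, which is larger than the known bound `1/√8`. -/
theorem result :
    (∀ p n : ℕ, p.Prime → 3 ≤ p → 6 * (p * (p - 1)) ≤ n → p - 1 ≤ tau n 4) ∧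
    (∀ ε : ℝ, 0 < ε → ∀ᶠ n : ℕ in atTop, (1 / Real.sqrt 6 - ε) * Real.sqrt n ≤ (tau n 4 : ℝ)) ∧
    1 / Real.sqrt 6 ≤ liminf (fun n : ℕ => (tau n 4 : ℝ) / Real.sqrt n) atTop := by
  refine ⟨fun p n hp h3 hn => Pool.Agent.H84.TI.six hp h3 hn, ?_, Pool.Agent.H84.TI.fin6⟩
  intro ε hε
  filter_upwards [Pool.Agent.H84.TI.low6 hε, eventually_gt_atTop 0] with n hn h0
  have h1 : (0 : ℝ) < Real.sqrt n := Real.sqrt_pos.2 (by exact_mod_cast h0)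
  exact (le_div_iff₀ h1).1 hn

end Pool.Agent.Results.MP_364e44_co.LiminfLower
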